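import Mathlib
import Pool.Agent.Lib.MP_bf61d2_nt.Trim.Joint.Main
import Pool.Agent.Lib.MP_bf61d2_nt.Trim.Local
import Pool.Agent.Lib.MP_bf61d2_nt.Trim.LocalCurve
import Pool.Agent.Lib.MP_bf61d2_nt.Trim.Model
import Pool.Agent.Lib.MP_bf61d2_nt.Trim.Places
import Pool.Agent.Lib.MP_bf61d2_nt.Trim.Residue
import Pool.Agent.Lib.MP_bf61d2_nt.Trim.Structure
import Pool.Agent.Lib.MP_bf61d2_nt.Trim.TwistLocal
import Pool.Agent.Lib.MP_bf61d2_nt.Trim.TwistMain

set_option autoImplicit false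

/-!
EDGE REPULSION (MP_bf61d2_nt), module TWU: the traces of Frobenius of a quadratic twist, with an
error which is uniform in the elliptic curve.
-/

namespace WeierstrassCurve
end WeierstrassCurve

namespace NumberField
end NumberField

namespace Pool.Agent.Lib.MP_bf61d2_nt.Artin

namespace TW73

open WeierstrassCurve IsDiscreteValuationRing IsDedekindDomain IsDedekindDomain.HeightOneSpectrum
  IsLocalRing Polynomial

section DVR

variable {R : Type*} [CommRing R] [IsDomain R] [IsDiscreteValuationRing R]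
  {F : Type*} [Field F] [Algebra R F] [IsFractionRing R F]

/-- A curve with good reduction has a short integral model with unit discriminant. -/
lemma exists_short (W : WeierstrassCurve F) (h : (W.minimal R).HasGoodReduction R)
    (h2 : IsUnit (2 : R)) (h3 : IsUnit (3 : R)) :
    ∃ (A B : R) (C : VariableChange F),
      W = C • (⟨0, 0, 0, A, B⟩ : WeierstrassCurve R).map (algebraMap R F) ∧
      IsUnit (⟨0, 0, 0, A, B⟩ : WeierstrassCurve R).Δ := by
  let : Invertible (2 : R) := h2.invertible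
  let : Invertible (3 : R) := h3.invertible
  obtain ⟨C₁, hC₁⟩ : ∃ C : VariableChange F, W.minimal R = C • W := ⟨_, rfl⟩
  set M : WeierstrassCurve R := integralModel R (W.minimal R) with hMdef
  have hM : M.map (algebraMap R F) = W.minimal R := baseChange_integralModel_eq R _
  obtain ⟨D, hD⟩ := M.exists_variableChange_isShortNF
  have hshort : (⟨0, 0, 0, (D • M).a₄, (D • M).a₆⟩ : WeierstrassCurve R) = D • M := by
    ext
    · exact hD.a₁.symm
    · exact hD.a₂.symm
    · exact hD.a₃.symm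
    · rfl
    · rfl
  refine ⟨(D • M).a₄, (D • M).a₆, C₁⁻¹ * (D.map (algebraMap R F))⁻¹, ?_, ?_⟩
  · rw [hshort, ← map_variableChange, hM, mul_smul, inv_smul_smul, hC₁, inv_smul_smul]
  · rw [hshort, variableChange_Δ]
    refine IsUnit.mul ((Units.isUnit _).pow 12) ?_
    obtain ⟨w, hw⟩ := exists_unit_of_valuation (R := R) (F := F) h.goodReduction
    have h4 : algebraMap R F M.Δ = algebraMap R F w := by
      rw [← map_Δ, hM, hw]
    rw [IsFractionRing.injective R F h4]
    exact w.isUnit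

/-- Twisting a short model. -/
lemma twist_change {a2 a4 a6 A B : F} (h2 : (2 : F) ≠ 0) {C : VariableChange F}
    (hC : (⟨0, a2, 0, a4, a6⟩ : WeierstrassCurve F) = C • (⟨0, 0, 0, A, B⟩ : WeierstrassCurve F))
    {d m e : F} (hm : m ≠ 0) (hd : d * m ^ 2 = e) :
    ∃ C' : VariableChange F, (⟨0, d * a2, 0, d ^ 2 * a4, d ^ 3 * a6⟩ : WeierstrassCurve F) =
      C' • (⟨0, 0, 0, A * e ^ 2, B * e ^ 3⟩ : WeierstrassCurve F) := by
  have hu : (C.u : F) ≠ 0 := C.u.ne_zero
  have hui : ((C.u⁻¹ : Fˣ) : F) ≠ 0 := (C.u⁻¹).ne_zero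
  rw [variableChange_def] at hC
  have h1 := congrArg WeierstrassCurve.a₁ hC
  have h22 := congrArg WeierstrassCurve.a₂ hC
  have h33 := congrArg WeierstrassCurve.a₃ hC
  have h44 := congrArg WeierstrassCurve.a₄ hC
  have h66 := congrArg WeierstrassCurve.a₆ hC
  simp only at h1 h22 h33 h44 h66
  have hs : C.s = 0 := by
    have h5 : ((C.u⁻¹ : Fˣ) : F) * (2 * C.s) = 0 := by rw [h1]; ring
    rcases mul_eq_zero.mp h5 with h | h
    · exact absurd h hui
    · rcases mul_eq_zero.mp h with h | h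
      · exact absurd h h2
      · exact h
  have ht : C.t = 0 := by
    have h5 : ((C.u⁻¹ : Fˣ) : F) ^ 3 * (2 * C.t) = 0 := by rw [h33]; ring
    rcases mul_eq_zero.mp h5 with h | h
    · exact absurd h (pow_ne_zero 3 hui)
    · rcases mul_eq_zero.mp h with h | h
      · exact absurd h h2
      · exact h
  rw [hs, ht, Units.val_inv_eq_inv_val] at h44
  rw [ht, Units.val_inv_eq_inv_val] at h66
  rw [hs, Units.val_inv_eq_inv_val] at h22
  refine ⟨⟨Units.mk0 ((C.u : F) * m) (mul_ne_zero hu hm), e * C.r, 0, 0⟩, ?_⟩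
  rw [variableChange_def]
  ext
  · simp
  · simp only [Units.val_inv_eq_inv_val, Units.val_mk0]
    rw [h22, ← hd]
    field_simp
    ring
  · simp
  · simp only [Units.val_inv_eq_inv_val, Units.val_mk0]
    rw [h44, ← hd]
    field_simp
    ring
  · simp only [Units.val_inv_eq_inv_val, Units.val_mk0]
    rw [h66, ← hd]
    field_simp
    ring

/-- The local polynomials of a curve with good reduction and of its twist by a unit. -/
lemma local_twist [Finite (ResidueField R)] {a2 a4 a6 : F} (h2 : IsUnit (2 : R))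
    (h3 : IsUnit (3 : R))
    (h : ((⟨0, a2, 0, a4, a6⟩ : WeierstrassCurve F).minimal R).HasGoodReduction R) {e : R}
    (he : IsUnit e) {d m : F} (hm : m ≠ 0) (hd : d * m ^ 2 = algebraMap R F e) :
    ∃ A B : R, IsUnit (⟨0, 0, 0, A, B⟩ : WeierstrassCurve R).Δ ∧
      IsUnit (⟨0, 0, 0, A * e ^ 2, B * e ^ 3⟩ : WeierstrassCurve R).Δ ∧
      (⟨0, a2, 0, a4, a6⟩ : WeierstrassCurve F).localPolynomial R =
        quad ((Nat.card (ResidueField R) : ℤ) + 1 -
          Nat.card ((⟨0, 0, 0, A, B⟩ : WeierstrassCurve R).map (residue R)).toAffine.Point)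
          (Nat.card (ResidueField R)) ∧
      ((⟨0, d * a2, 0, d ^ 2 * a4, d ^ 3 * a6⟩ : WeierstrassCurve F).minimal R).HasGoodReduction
        R ∧
      (⟨0, d * a2, 0, d ^ 2 * a4, d ^ 3 * a6⟩ : WeierstrassCurve F).localPolynomial R =
        quad ((Nat.card (ResidueField R) : ℤ) + 1 -
          Nat.card ((⟨0, 0, 0, A * e ^ 2, B * e ^ 3⟩ : WeierstrassCurve R).map
            (residue R)).toAffine.Point)
          (Nat.card (ResidueField R)) := by
  obtain ⟨A, B, C, hC, hΔ⟩ := exists_short (R := R) _ h h2 h3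
  have hF2 : (2 : F) ≠ 0 := by
    have := (h2.map (algebraMap R F)).ne_zero
    rwa [map_ofNat] at this
  have e1 : (⟨0, 0, 0, A, B⟩ : WeierstrassCurve R).map (algebraMap R F) =
      ⟨0, 0, 0, algebraMap R F A, algebraMap R F B⟩ := by
    ext <;> simp
  obtain ⟨C', hC'⟩ := twist_change hF2 (by rw [hC, e1]) hm hd
  have e2 : (⟨0, 0, 0, A * e ^ 2, B * e ^ 3⟩ : WeierstrassCurve R).map (algebraMap R F) =
      ⟨0, 0, 0, algebraMap R F A * algebraMap R F e ^ 2,
        algebraMap R F B * algebraMap R F e ^ 3⟩ := by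
    ext <;> simp
  have hΔe : (⟨0, 0, 0, A * e ^ 2, B * e ^ 3⟩ : WeierstrassCurve R).Δ =
      e ^ 6 * (⟨0, 0, 0, A, B⟩ : WeierstrassCurve R).Δ := by
    simp only [Δ, b₂, b₄, b₆, b₈]
    ring
  have hΔ' : IsUnit (⟨0, 0, 0, A * e ^ 2, B * e ^ 3⟩ : WeierstrassCurve R).Δ := by
    rw [hΔe]
    exact (he.pow 6).mul hΔ
  rw [← e2] at hC'
  exact ⟨A, B, hΔ, hΔ', localPolynomial_of_good R _ C hC hΔ h2 h3,
    (exists_integral_change R _ C' hC' hΔ' h2 h3).1, localPolynomial_of_good R _ C' hC' hΔ' h2 h3⟩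

end DVR

section Global

open NumberField

variable {K : Type*} [Field K] [NumberField K]

/-- Good reduction at a place. -/
def GoodAt (W : WeierstrassCurve K) (v : HeightOneSpectrum (𝓞 K)) : Prop :=
  ((W.baseChange (v.adicCompletion K)).minimal (v.adicCompletionIntegers K)).HasGoodReduction
    (v.adicCompletionIntegers K)

lemma abs_tr_le_one {W : WeierstrassCurve K} {v : HeightOneSpectrum (𝓞 K)}
    (h : ¬ GoodAt W v) : |tr W v| ≤ 1 := by
  rw [tr, lp, WeierstrassCurve.localPolynomial]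
  split_ifs with h0 h1 h2
  · exact absurd h0 h
  · have e : (1 - X : ℤ[X]) = quad 1 0 := by simp [quad]
    rw [e, coeff_quad_one]; simp
  · have e : (1 + X : ℤ[X]) = quad (-1) 0 := by simp [quad]
    rw [e, coeff_quad_one]; simp
  · have e : (1 : ℤ[X]) = quad 0 0 := by simp [quad]
    rw [e, coeff_quad_one]; simp

lemma abs_cc_bad {W : WeierstrassCurve K} {v : HeightOneSpectrum (𝓞 K)}
    (h : ¬ GoodAt W v) : |cc W v| ≤ 1 / Real.sqrt (nm v) := by
  unfold cc
  split_ifs with h1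
  · rw [abs_div, abs_of_nonneg (Real.sqrt_nonneg _)]
    gcongr
    exact_mod_cast abs_tr_le_one h
  · rw [abs_zero]
    positivity

lemma base_eq (a2 a4 a6 : K) (v : HeightOneSpectrum (𝓞 K)) :
    (⟨0, a2, 0, a4, a6⟩ : WeierstrassCurve K).baseChange (v.adicCompletion K) =
      ⟨0, algebraMap K (v.adicCompletion K) a2, 0, algebraMap K (v.adicCompletion K) a4,
        algebraMap K (v.adicCompletion K) a6⟩ := by
  rw [WeierstrassCurve.baseChange]
  ext <;> simp

lemma good_twist {a2 a4 a6 : K} {v : HeightOneSpectrum (𝓞 K)} (h2 : (2 : 𝓞 K) ∉ v.asIdeal)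
    (h3 : (3 : 𝓞 K) ∉ v.asIdeal) (h : GoodAt ⟨0, a2, 0, a4, a6⟩ v) {e m : 𝓞 K}
    (he : e ∉ v.asIdeal) (hm : m ≠ 0) {d : K} (hd : d * (m : K) ^ 2 = e) :
    GoodAt ⟨0, d * a2, 0, d ^ 2 * a4, d ^ 3 * a6⟩ v ∧
      tr ⟨0, d * a2, 0, d ^ 2 * a4, d ^ 3 * a6⟩ v = chi v e * tr ⟨0, a2, 0, a4, a6⟩ v := by
  classical
  let := Fintype.ofFinite (ResidueField (v.adicCompletionIntegers K))
  have u2 : IsUnit (2 : v.adicCompletionIntegers K) := by
    have := isUnit_algebraMap v h2
    rwa [map_ofNat] at this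
  have u3 : IsUnit (3 : v.adicCompletionIntegers K) := by
    have := isUnit_algebraMap v h3
    rwa [map_ofNat] at this
  have hm' : algebraMap K (v.adicCompletion K) (m : K) ≠ 0 := by
    rw [Ne, FaithfulSMul.algebraMap_eq_zero_iff]
    simpa using hm
  rw [GoodAt, base_eq] at h
  have hd' : algebraMap K (v.adicCompletion K) d * algebraMap K (v.adicCompletion K) (m : K) ^ 2 =
      algebraMap (v.adicCompletionIntegers K) (v.adicCompletion K)
        (algebraMap (𝓞 K) (v.adicCompletionIntegers K) e) := by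
    rw [← map_pow, ← map_mul, hd]
    rfl
  obtain ⟨A, B, hΔ, hΔ', e1, hg, e2⟩ := local_twist (R := v.adicCompletionIntegers K) u2 u3 h
    (isUnit_algebraMap v he) hm' hd'
  have hb : (⟨0, d * a2, 0, d ^ 2 * a4, d ^ 3 * a6⟩ : WeierstrassCurve K).baseChange
      (v.adicCompletion K) = ⟨0, algebraMap K (v.adicCompletion K) d *
        algebraMap K (v.adicCompletion K) a2, 0, algebraMap K (v.adicCompletion K) d ^ 2 *
        algebraMap K (v.adicCompletion K) a4, algebraMap K (v.adicCompletion K) d ^ 3 *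
        algebraMap K (v.adicCompletion K) a6⟩ := by
    rw [base_eq]
    simp only [map_mul, map_pow]
  refine ⟨by rw [GoodAt, hb]; exact hg, ?_⟩
  rw [tr, tr, lp, lp, base_eq a2, hb, e1, e2, coeff_quad_one, coeff_quad_one, neg_neg, neg_neg]
  have f1 : (⟨0, 0, 0, A, B⟩ : WeierstrassCurve (v.adicCompletionIntegers K)).map (residue _) =
      ⟨0, 0, 0, residue _ A, residue _ B⟩ := by
    ext <;> simp
  have f2 : (⟨0, 0, 0, A * algebraMap (𝓞 K) (v.adicCompletionIntegers K) e ^ 2,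
      B * algebraMap (𝓞 K) (v.adicCompletionIntegers K) e ^ 3⟩ :
        WeierstrassCurve (v.adicCompletionIntegers K)).map (residue _) =
      ⟨0, 0, 0, residue _ A * red v e ^ 2, residue _ B * red v e ^ 3⟩ := by
    ext
    · simp
    · simp
    · simp
    · simp only [map_a₄, map_mul, map_pow]; rfl
    · simp only [map_a₆, map_mul, map_pow]; rfl
  have hell1 : (((⟨0, 0, 0, A, B⟩ : WeierstrassCurve (v.adicCompletionIntegers K)).map
      (residue _))).IsElliptic := ⟨by rw [map_Δ]; exact hΔ.map _⟩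
  have hell2 : (((⟨0, 0, 0, A * algebraMap (𝓞 K) (v.adicCompletionIntegers K) e ^ 2,
      B * algebraMap (𝓞 K) (v.adicCompletionIntegers K) e ^ 3⟩ :
        WeierstrassCurve (v.adicCompletionIntegers K)).map (residue _))).IsElliptic :=
    ⟨by rw [map_Δ]; exact hΔ'.map _⟩
  rw [f1] at hell1 ⊢
  rw [f2] at hell2 ⊢
  have h7 := card_twist (ringChar_residue_ne_two v h2) (residue _ A) (residue _ B) (red v e)
    (fun h => he ((red_eq_zero_iff v e).mp h)) hell1 hell2
  rw [Nat.card_eq_fintype_card]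
  exact h7

lemma not_good_twist {a2 a4 a6 : K} {v : HeightOneSpectrum (𝓞 K)} (h2 : (2 : 𝓞 K) ∉ v.asIdeal)
    (h3 : (3 : 𝓞 K) ∉ v.asIdeal) (h : ¬ GoodAt ⟨0, a2, 0, a4, a6⟩ v) {e m : 𝓞 K}
    (he : e ∉ v.asIdeal) (hm : m ≠ 0) {d : K} (hd : d * (m : K) ^ 2 = e) :
    ¬ GoodAt ⟨0, d * a2, 0, d ^ 2 * a4, d ^ 3 * a6⟩ v := by
  intro hg
  apply h
  have u2 : IsUnit (2 : v.adicCompletionIntegers K) := by
    have := isUnit_algebraMap v h2
    rwa [map_ofNat] at this
  have u3 : IsUnit (3 : v.adicCompletionIntegers K) := by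
    have := isUnit_algebraMap v h3
    rwa [map_ofNat] at this
  obtain ⟨w, hw⟩ := isUnit_algebraMap v he
  have hmK : (m : K) ≠ 0 := by simpa using hm
  have hm' : algebraMap K (v.adicCompletion K) (m : K) ≠ 0 := by
    rw [Ne, FaithfulSMul.algebraMap_eq_zero_iff]
    exact hmK
  have he0 : (e : K) ≠ 0 := by
    intro h0
    have : e = 0 := by exact_mod_cast h0
    exact he (by rw [this]; exact v.asIdeal.zero_mem)
  have hd0 : d ≠ 0 := by
    intro h0
    rw [h0, zero_mul] at hd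
    exact he0 hd.symm
  rw [GoodAt, base_eq] at hg
  have hw2 : algebraMap (v.adicCompletionIntegers K) (v.adicCompletion K) w =
      algebraMap K (v.adicCompletion K) (e : K) := by
    rw [hw]; rfl
  have he' : algebraMap K (v.adicCompletion K) (e : K) ≠ 0 := by
    rw [Ne, FaithfulSMul.algebraMap_eq_zero_iff]
    exact he0
  have hwi : algebraMap (v.adicCompletionIntegers K) (v.adicCompletion K) ((w⁻¹ : _ˣ) :
      v.adicCompletionIntegers K) = (algebraMap K (v.adicCompletion K) (e : K))⁻¹ := by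
    apply eq_inv_of_mul_eq_one_left
    rw [← hw2, ← map_mul, Units.inv_mul, map_one]
  have hd' : algebraMap K (v.adicCompletion K) d⁻¹ *
      (algebraMap K (v.adicCompletion K) (m : K))⁻¹ ^ 2 =
      algebraMap (v.adicCompletionIntegers K) (v.adicCompletion K) ((w⁻¹ : _ˣ) :
        v.adicCompletionIntegers K) := by
    rw [hwi, map_inv₀, inv_pow, ← mul_inv, ← map_pow, ← map_mul, hd]
  obtain ⟨A, B, -, -, -, hg', -⟩ := local_twist (R := v.adicCompletionIntegers K) u2 u3 hg
    (w⁻¹).isUnit (inv_ne_zero hm') hd'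
  rw [GoodAt, base_eq]
  convert hg' using 3
  · rw [← map_mul]; congr 1; field_simp
  · rw [← map_pow, ← map_mul]; congr 1; field_simp
  · rw [← map_pow, ← map_mul]; congr 1; field_simp

/-- The traces of a twist, at the places prime to `6 e`. -/
lemma cc_twist {a2 a4 a6 : K} {v : HeightOneSpectrum (𝓞 K)} {e m : 𝓞 K}
    (he : (6 : 𝓞 K) * e ∉ v.asIdeal) (hm : m ≠ 0) {d : K} (hd : d * (m : K) ^ 2 = e) :
    |cc ⟨0, d * a2, 0, d ^ 2 * a4, d ^ 3 * a6⟩ v - (chi v e : ℝ) * cc ⟨0, a2, 0, a4, a6⟩ v| ≤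
      2 / Real.sqrt (nm v) := by
  have h2 : (2 : 𝓞 K) ∉ v.asIdeal := fun h => he (by
    have : (6 : 𝓞 K) * e = 3 * e * 2 := by ring
    rw [this]; exact Ideal.mul_mem_left _ _ h)
  have h3 : (3 : 𝓞 K) ∉ v.asIdeal := fun h => he (by
    have : (6 : 𝓞 K) * e = 2 * e * 3 := by ring
    rw [this]; exact Ideal.mul_mem_left _ _ h)
  have h4 : e ∉ v.asIdeal := fun h => he (Ideal.mul_mem_left _ _ h)
  have hs : 0 ≤ 1 / Real.sqrt (nm v) := by positivity
  by_cases h : GoodAt ⟨0, a2, 0, a4, a6⟩ v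
  · rw [cc_eq_of_tr (good_twist h2 h3 h h4 hm hd).2, sub_self, abs_zero]
    positivity
  · have h5 := abs_cc_bad h
    have h6 := abs_cc_bad (not_good_twist h2 h3 h h4 hm hd)
    have h7 : |(chi v e : ℝ)| ≤ 1 := by exact_mod_cast abs_chi_le v e
    calc _ ≤ |cc ⟨0, d * a2, 0, d ^ 2 * a4, d ^ 3 * a6⟩ v| +
          |(chi v e : ℝ) * cc ⟨0, a2, 0, a4, a6⟩ v| := abs_sub _ _
      _ ≤ 1 / Real.sqrt (nm v) + 1 * (1 / Real.sqrt (nm v)) := by
          rw [abs_mul]
          gcongr
      _ = _ := by ring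

omit [NumberField K] in
lemma qt_one_eq (E : WeierstrassCurve K) :
    qt E 1 = ⟨0, E.b₂ / 4, 0, E.b₄ / 2, E.b₆ / 4⟩ := by
  simp [qt]

end Global

end TW73

end Pool.Agent.Lib.MP_bf61d2_nt.Artin
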