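import Mathlib
import Pool.Agent.Lib.MP_bf61d2_nt.Trim.Artin.U.TWU73
import Pool.Agent.Lib.MP_bf61d2_nt.Trim.Joint.Main
import Pool.Agent.Lib.MP_bf61d2_nt.Trim.Local
import Pool.Agent.Lib.MP_bf61d2_nt.Trim.LocalCurve
import Pool.Agent.Lib.MP_bf61d2_nt.Trim.Model
import Pool.Agent.Lib.MP_bf61d2_nt.Trim.Places
import Pool.Agent.Lib.MP_bf61d2_nt.Trim.Residue
import Pool.Agent.Lib.MP_bf61d2_nt.Trim.Structure
import Pool.Agent.Lib.MP_bf61d2_nt.Trim.TwistLocal
import Pool.Agent.Lib.MP_bf61d2_nt.Trim.TwistMain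

set_option autoImplicit false

/-!
EDGE REPULSION (MP_bf61d2_nt): isomorphic curves, and the traces of `qt E d` in terms of those of `E`.
-/

namespace WeierstrassCurve
end WeierstrassCurve

namespace NumberField
end NumberField

namespace Pool.Agent.Lib.MP_bf61d2_nt.Artin

namespace TW73

open WeierstrassCurve IsDedekindDomain IsDedekindDomain.HeightOneSpectrum IsLocalRing NumberField

variable {K : Type*} [Field K] [NumberField K]

/-- Isomorphic curves at a place prime to `6`. -/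
lemma good_iso {W W' : WeierstrassCurve K} {C : VariableChange K} (hC : W' = C • W)
    {v : HeightOneSpectrum (𝓞 K)} (h2 : (2 : 𝓞 K) ∉ v.asIdeal)
    (h3 : (3 : 𝓞 K) ∉ v.asIdeal) (h : GoodAt W v) : GoodAt W' v ∧ tr W' v = tr W v := by
  have u2 : IsUnit (2 : v.adicCompletionIntegers K) := by
    have := isUnit_algebraMap v h2
    rwa [map_ofNat] at this
  have u3 : IsUnit (3 : v.adicCompletionIntegers K) := by
    have := isUnit_algebraMap v h3
    rwa [map_ofNat] at this
  obtain ⟨A, B, D, hD, hΔ⟩ := exists_short (R := v.adicCompletionIntegers K)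
    (W.baseChange (v.adicCompletion K)) h u2 u3
  have hb : W'.baseChange (v.adicCompletion K) =
      (C.map (algebraMap K (v.adicCompletion K)) * D) •
        (⟨0, 0, 0, A, B⟩ : WeierstrassCurve (v.adicCompletionIntegers K)).map
          (algebraMap (v.adicCompletionIntegers K) (v.adicCompletion K)) := by
    rw [mul_smul, ← hD, hC, WeierstrassCurve.baseChange, WeierstrassCurve.baseChange,
      map_variableChange]
  refine ⟨(exists_integral_change (v.adicCompletionIntegers K) _ _ hb hΔ u2 u3).1, ?_⟩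
  rw [tr, tr, lp, lp, localPolynomial_of_good (v.adicCompletionIntegers K) _ _ hb hΔ u2 u3,
    localPolynomial_of_good (v.adicCompletionIntegers K) _ _ hD hΔ u2 u3]

lemma cc_iso {W W' : WeierstrassCurve K} {C : VariableChange K} (hC : W' = C • W)
    {v : HeightOneSpectrum (𝓞 K)} (h6 : (6 : 𝓞 K) ∉ v.asIdeal) :
    |cc W' v - cc W v| ≤ 2 / Real.sqrt (nm v) := by
  have h2 : (2 : 𝓞 K) ∉ v.asIdeal := fun h => h6 (by
    have : (6 : 𝓞 K) = 3 * 2 := by norm_num
    rw [this]; exact Ideal.mul_mem_left _ _ h)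
  have h3 : (3 : 𝓞 K) ∉ v.asIdeal := fun h => h6 (by
    have : (6 : 𝓞 K) = 2 * 3 := by norm_num
    rw [this]; exact Ideal.mul_mem_left _ _ h)
  by_cases h : GoodAt W v
  · have h5 := (good_iso hC h2 h3 h).2
    have h6 : tr W' v = (1 : ℤ) * tr W v := by rw [h5, one_mul]
    have h7 := cc_eq_of_tr h6
    rw [Int.cast_one, one_mul] at h7
    rw [h7, sub_self, abs_zero]
    positivity
  · have h' : ¬ GoodAt W' v := fun hg => h
      (good_iso (W := W') (W' := W) (C := C⁻¹) (by rw [hC, inv_smul_smul]) h2 h3 hg).1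
    calc _ ≤ |cc W' v| + |cc W v| := abs_sub _ _
      _ ≤ 1 / Real.sqrt (nm v) + 1 / Real.sqrt (nm v) := add_le_add (abs_cc_bad h') (abs_cc_bad h)
      _ = _ := by ring

omit [NumberField K] in
lemma qt_one_iso [CharZero K] (E : WeierstrassCurve K) :
    qt E 1 = (⟨1, 0, -E.a₁ / 2, -E.a₃ / 2⟩ : VariableChange K) • E := by
  rw [variableChange_def]
  ext
  · simp only [qt, Units.val_inv_eq_inv_val, Units.val_one]
    ring
  · simp only [qt, Units.val_inv_eq_inv_val, Units.val_one, b₂]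
    field_simp
    ring
  · simp only [qt, Units.val_inv_eq_inv_val, Units.val_one]
    ring
  · simp only [qt, Units.val_inv_eq_inv_val, Units.val_one, b₄]
    field_simp
    ring
  · simp only [qt, Units.val_inv_eq_inv_val, Units.val_one, b₆]
    field_simp
    ring

/-- The twist by an algebraic integer, in terms of the curve itself. -/
lemma cc_qt (E : WeierstrassCurve K) {e : 𝓞 K} {v : HeightOneSpectrum (𝓞 K)}
    (he : (6 : 𝓞 K) * e ∉ v.asIdeal) :
    |cc (qt E (e : K)) v - (chi v e : ℝ) * cc E v| ≤ 4 / Real.sqrt (nm v) := by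
  have h6 : (6 : 𝓞 K) ∉ v.asIdeal := fun h => he (Ideal.mul_mem_right _ _ h)
  have h1 := cc_twist (a2 := E.b₂ / 4) (a4 := E.b₄ / 2) (a6 := E.b₆ / 4) he (m := 1)
    one_ne_zero (d := (e : K)) (by simp)
  have h2 := cc_iso (qt_one_iso E) h6
  have h3 : |(chi v e : ℝ)| ≤ 1 := by exact_mod_cast abs_chi_le v e
  rw [← qt_one_eq] at h1
  have e1 : cc (qt E (e : K)) v - (chi v e : ℝ) * cc E v =
      (cc ⟨0, (e : K) * (E.b₂ / 4), 0, (e : K) ^ 2 * (E.b₄ / 2), (e : K) ^ 3 * (E.b₆ / 4)⟩ v -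
        (chi v e : ℝ) * cc (qt E 1) v) + (chi v e : ℝ) * (cc (qt E 1) v - cc E v) := by
    rw [qt]; ring
  rw [e1]
  calc _ ≤ _ := abs_add_le _ _
    _ ≤ 2 / Real.sqrt (nm v) + 1 * (2 / Real.sqrt (nm v)) := by
        rw [abs_mul (chi v e : ℝ)]
        gcongr
    _ = _ := by ring

end TW73

end Pool.Agent.Lib.MP_bf61d2_nt.Artin
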