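import Mathlib
import Pool.Agent.Lib.MP_bf61d2_nt.Trim.Artin.Defs63

set_option autoImplicit false

/-!
EDGE REPULSION (MP_bf61d2_nt), module U2: the prime sums with a Dirichlet character of the norm,
far from the real axis (the argument with 3, 4 and 1).
-/

namespace NumberField
end NumberField

namespace Pool.Agent.Lib.MP_bf61d2_nt.Perm
end Pool.Agent.Lib.MP_bf61d2_nt.Perm

namespace Pool.Agent.Lib.MP_bf61d2_nt.Artin

open NumberField IsDedekindDomain Filter Topology Polynomial Module

open Pool.Agent.Lib.MP_bf61d2_nt.Perm

namespace U214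

lemma norm_ph (u : ℝ) (n : ℕ) : ‖ph u n‖ = 1 := by
  unfold ph
  exact Complex.norm_exp_ofReal_mul_I _

section one

variable (K : Type*) [Field K] [NumberField K]

variable {K}

end one

end U214

end Pool.Agent.Lib.MP_bf61d2_nt.Artin
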